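import Pool.Agent.W307.FK.Main
import Pool.Agent.W262.SH.FamD
import Pool.Agent.W262.SH.Kum
import Pool.Agent.W177.SH.Div
import Pool.Agent.W333.SH.Dup
import Pool.Agent.W782.SH.LocX
import Pool.Agent.W334.SH.Sh1
import Pool.Agent.W338.SH.Sh2

/-!
# Project FK: the rank and the Tate-Shafarevich group
-/

set_option autoImplicit false

namespace Pool.Agent.W307.FK.G

open Finset Pool.Agent.W307.FK Pool.Agent.W262.SH

theorem sh1 : SH1 := Pool.Agent.W334.SH.sh1 Pool.Agent.W262.SH.kum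
  (Pool.Agent.W782.SH.locx Pool.Agent.W333.SH.dup)

theorem sh2 : SH2 := Pool.Agent.W338.SH.sh2 Pool.Agent.W177.SH.div

theorem desc5 : DESC5 := Pool.Agent.W839.SH.desc5 Pool.Agent.W131.SH.good2

/-- the second moment of the weight `2 ^ rank * #Ш[2]` -/
theorem wt_fam (h : EXPF) : ∃ C : ℝ, 0 ≤ C ∧ ∀ D : ℤ, D ≠ 0 → ∀ Z : ℕ,
    ∑ t ∈ Fam Z, wt (D * t.1) (D * t.2) ^ 2 ≤
      C * 128 ^ D.natAbs.primeFactors.card * (Fam Z).card := by
  obtain ⟨C, hC, hb⟩ := famg (regs_of h)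
  refine ⟨C, hC, fun D hD Z => le_trans (sum_le_sum fun t ht => ?_) (hb D hD Z)⟩
  rw [Fam, mem_filter, mem_product, mem_Icc, mem_Icc] at ht
  obtain ⟨⟨⟨a1, _⟩, ⟨a3, _⟩⟩, a5, _, _⟩ := ht
  have h1 : (t.1 : ℤ) ≠ 0 := by
    have : t.1 ≠ 0 := by omega
    exact_mod_cast this
  have h2 : (t.2 : ℤ) ≠ 0 := by
    have : t.2 ≠ 0 := by omega
    exact_mod_cast this
  have h3 : (t.1 : ℤ) ≠ t.2 := by exact_mod_cast a5.ne
  exact pow_le_pow_left₀ (wt_nonneg _ _) (wt_le desc5 sh1 sh2 (mul_ne_zero hD h1)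
    (mul_ne_zero hD h2) (fun h => h3 (mul_left_cancel₀ hD h))) 2

/-- means over a set of twists -/
theorem mean_fam {I : Type} [Fintype I] [Nonempty I] (d : I → ℤ) (P : ℤ) (hP : P ≠ 0)
    (hd : ∀ i, d i ∣ P) {C : ℝ} (hC0 : 0 ≤ C) (hC : ∀ D : ℤ, D ≠ 0 → ∀ Z : ℕ,
    ∑ t ∈ Fam Z, wt (D * t.1) (D * t.2) ^ 2 ≤
      C * 128 ^ D.natAbs.primeFactors.card * (Fam Z).card) (y : ℕ × ℕ → ℝ) (Z : ℕ)
    (hy : ∀ t ∈ Fam Z, (2 : ℝ) ^ (y t / Fintype.card I) ≤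
      (Fintype.card I : ℝ)⁻¹ * ∑ i, wt (d i * t.1) (d i * t.2)) :
    ∑ t ∈ Fam Z, (4 : ℝ) ^ (y t / Fintype.card I) ≤
      C * 128 ^ P.natAbs.primeFactors.card * (Fam Z).card := by
  have hc : (0 : ℝ) < Fintype.card I := by exact_mod_cast Fintype.card_pos
  have h1 : ∀ t ∈ Fam Z, (4 : ℝ) ^ (y t / Fintype.card I) ≤
      (Fintype.card I : ℝ)⁻¹ * ∑ i, wt (d i * t.1) (d i * t.2) ^ 2 := by
    intro t ht
    have e1 : (4 : ℝ) ^ (y t / Fintype.card I) = ((2 : ℝ) ^ (y t / Fintype.card I)) ^ 2 := by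
      rw [← Real.rpow_natCast, ← Real.rpow_mul (by norm_num),
        mul_comm, Real.rpow_mul (by norm_num)]
      norm_num
    rw [e1]
    have h2 := pow_le_pow_left₀ (by positivity) (hy t ht) 2
    refine h2.trans ?_
    rw [mul_pow]
    have h3 := sq_sum_le_card_mul_sum_sq (s := (univ : Finset I))
      (f := fun i => wt (d i * t.1) (d i * t.2))
    rw [card_univ] at h3
    calc (Fintype.card I : ℝ)⁻¹ ^ 2 * (∑ i, wt (d i * t.1) (d i * t.2)) ^ 2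
        ≤ (Fintype.card I : ℝ)⁻¹ ^ 2 *
          (Fintype.card I * ∑ i, wt (d i * t.1) (d i * t.2) ^ 2) :=
          mul_le_mul_of_nonneg_left h3 (by positivity)
      _ = _ := by
          rw [sq, mul_assoc, ← mul_assoc ((Fintype.card I : ℝ)⁻¹) (Fintype.card I : ℝ),
            inv_mul_cancel₀ hc.ne', one_mul]
  refine (sum_le_sum h1).trans ?_
  rw [← mul_sum, sum_comm]
  have h2 : ∀ i : I, ∑ t ∈ Fam Z, wt (d i * t.1) (d i * t.2) ^ 2 ≤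
      C * 128 ^ P.natAbs.primeFactors.card * (Fam Z).card := by
    intro i
    have hi : d i ≠ 0 := fun h => hP (zero_dvd_iff.1 (h ▸ hd i))
    refine (hC (d i) hi Z).trans ?_
    refine mul_le_mul_of_nonneg_right (mul_le_mul_of_nonneg_left ?_ hC0) (Nat.cast_nonneg _)
    refine pow_le_pow_right₀ (by norm_num) (card_le_card ?_)
    exact Nat.primeFactors_mono (Int.natAbs_dvd_natAbs.2 (hd i)) (Int.natAbs_ne_zero.2 hP)
  calc (Fintype.card I : ℝ)⁻¹ * ∑ i, ∑ t ∈ Fam Z, wt (d i * t.1) (d i * t.2) ^ 2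
      ≤ (Fintype.card I : ℝ)⁻¹ * ∑ _i : I, C * 128 ^ P.natAbs.primeFactors.card *
        (Fam Z).card :=
        mul_le_mul_of_nonneg_left (sum_le_sum fun i _ => h2 i) (by positivity)
    _ = _ := by
        rw [sum_const, card_univ, nsmul_eq_mul, ← mul_assoc, inv_mul_cancel₀ hc.ne', one_mul]

theorem fam_ne {Z : ℕ} {t : ℕ × ℕ} (ht : t ∈ Fam Z) :
    (t.1 : ℤ) ≠ 0 ∧ (t.2 : ℤ) ≠ 0 ∧ (t.1 : ℤ) ≠ t.2 := by
  rw [Fam, mem_filter, mem_product, mem_Icc, mem_Icc] at ht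
  obtain ⟨⟨⟨a1, _⟩, ⟨a3, _⟩⟩, a5, _, _⟩ := ht
  refine ⟨?_, ?_, by exact_mod_cast a5.ne⟩
  · have : t.1 ≠ 0 := by omega
    exact_mod_cast this
  · have : t.2 ≠ 0 := by omega
    exact_mod_cast this

open scoped Classical in
/-- the multiquadratic fields -/
theorem shaK_fam (h : EXPF) (hphi : PHI) (hgrp : GRP) (hrk : RKK) : ∃ C : ℝ, 0 ≤ C ∧
    ∀ (l : ℕ) (D : Fin l → ℤ), (∀ i, D i ≠ 0) → ∀ (Z : ℕ) (r : ℕ × ℕ → ℕ),
    (∀ t ∈ Fam Z, ∃ j : (Fin (r t) → ZMod (2 ^ (l + 1))) →+ ShaK (E t.1 t.2) (KD D),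
      Function.Injective j) →
    ∑ t ∈ Fam Z, (4 : ℝ) ^ (((Module.finrank ℤ (Pt (E t.1 t.2) (KD D)) + r t : ℕ) : ℝ) / 2 ^ l) ≤
      C * 128 ^ (∏ i, D i).natAbs.primeFactors.card * (Fam Z).card := by
  obtain ⟨C, hC0, hC⟩ := wt_fam h
  refine ⟨C, hC0, fun l D hD Z r hr => ?_⟩
  have hP : ∏ i, D i ≠ 0 := prod_ne_zero_iff.2 fun i _ => hD i
  have hcard : (Fintype.card (Finset (Fin l)) : ℝ) = 2 ^ l := by
    rw [Fintype.card_finset, Fintype.card_fin]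
    push_cast
    rfl
  have h1 := mean_fam (fun S : Finset (Fin l) => ∏ i ∈ S, D i) (∏ i, D i) hP
    (fun S => prod_dvd_prod_of_subset _ _ _ (subset_univ S)) hC0 hC
    (fun t => ((Module.finrank ℤ (Pt (E t.1 t.2) (KD D)) + r t : ℕ) : ℝ)) Z (fun t ht => by
      obtain ⟨n1, n2, n3⟩ := fam_ne ht
      obtain ⟨j, hj⟩ := hr t ht
      rw [hcard]
      exact ptB desc5 sh1 sh2 hphi hgrp hrk D n1 n2 n3 hD (r t) j hj)
  rw [hcard] at h1
  exact h1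

open scoped Classical in
/-- the pointwise bound for the twist of `E ^ g` (from `ptD` of helper262) -/
theorem ptE (hlat : LAT) (hphi : PHIA2) (hgrp : GRP) (hrk : RKA2) {l g : ℕ} (hg : 0 < g)
    (D : Fin l → ℤ) (hD : ∀ i, D i ≠ 0) (ρ : (Fin l → ℤˣ) →* (Matrix (Fin g) (Fin g) ℤ)ˣ) :
    ∃ m : Finset (Fin l) → ℕ, ∑ S, m S = g ∧ ∀ A B : ℤ, A ≠ 0 → B ≠ 0 → A ≠ B → ∀ (r : ℕ)
    (j : (Fin r → ZMod (2 ^ (l + 1))) →+ ShaA (E A B) D ρ), Function.Injective j →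
    (2 : ℝ) ^ (((Module.finrank ℤ (ratA (E A B) D ρ) + r : ℕ) : ℝ) / g) ≤
      (g : ℝ)⁻¹ * ∑ i : (S : Finset (Fin l)) × Fin (m S),
        wt ((∏ k ∈ i.1, D k) * A) ((∏ k ∈ i.1, D k) * B) := by
  obtain ⟨m, M, N, hd⟩ := hlat l g ρ
  have hsum := hd.1
  refine ⟨m, hsum, fun A B hA hB hAB r j hj => ?_⟩
  have hS0 : ∀ S : Finset (Fin l), (∏ i ∈ S, D i) ≠ 0 := fun S =>
    prod_ne_zero_iff.2 fun i _ => hD i
  obtain ⟨Φ, hΦ⟩ := hphi l g D ρ m M N hd A B hA hB hAB hD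
  obtain ⟨hf, hc⟩ := card_two (fun S : (S : Finset (Fin l)) × Fin (m S) =>
    Sha (E ((∏ i ∈ S.1, D i) * A) ((∏ i ∈ S.1, D i) * B))) (fun S =>
    fin_sha desc5 sh1 sh2 (mul_ne_zero (hS0 S.1) hA) (mul_ne_zero (hS0 S.1) hB)
      (fun h => hAB (mul_left_cancel₀ (hS0 S.1) h)))
  have h3 := hgrp l r _ _ Φ hΦ j hj hf
  rw [hc] at h3
  have h4 := hrk l g D ρ m M N hd A B hA hB hAB hD
  have hcard : Fintype.card ((S : Finset (Fin l)) × Fin (m S)) = g := by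
    rw [Fintype.card_sigma]
    simpa using hsum
  have hne : Nonempty ((S : Finset (Fin l)) × Fin (m S)) := by
    rw [← Fintype.card_pos_iff, hcard]
    exact hg
  have h5 := amgm (fun S : (S : Finset (Fin l)) × Fin (m S) =>
    wt ((∏ i ∈ S.1, D i) * A) ((∏ i ∈ S.1, D i) * B))
    (fun S => wt_nonneg _ _) ((Module.finrank ℤ (ratA (E A B) D ρ) + r : ℕ) : ℝ) (by
      unfold wt
      rw [Real.rpow_natCast, prod_mul_distrib, prod_pow_eq_pow_sum, pow_add]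
      refine mul_le_mul (pow_le_pow_right₀ (by norm_num) h4) ?_ (by positivity) (by positivity)
      exact_mod_cast h3)
  rw [hcard] at h5
  exact h5

open scoped Classical in
/-- the twisted powers -/
theorem shaA_fam (h : EXPF) (hlat : LAT) (hphi : PHIA2) (hgrp : GRP) (hrk : RKA2) :
    ∃ C : ℝ, 0 ≤ C ∧
    ∀ (l g : ℕ) (D : Fin l → ℤ) (ρ : (Fin l → ℤˣ) →* (Matrix (Fin g) (Fin g) ℤ)ˣ), 0 < g →
    (∀ i, D i ≠ 0) → ∀ (Z : ℕ) (r : ℕ × ℕ → ℕ),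
    (∀ t ∈ Fam Z, ∃ j : (Fin (r t) → ZMod (2 ^ (l + 1))) →+ ShaA (E t.1 t.2) D ρ,
      Function.Injective j) →
    ∑ t ∈ Fam Z, (4 : ℝ) ^ (((Module.finrank ℤ (ratA (E t.1 t.2) D ρ) + r t : ℕ) : ℝ) / g) ≤
      C * 128 ^ (∏ i, D i).natAbs.primeFactors.card * (Fam Z).card := by
  obtain ⟨C, hC0, hC⟩ := wt_fam h
  refine ⟨C, hC0, fun l g D ρ hg hD Z r hr => ?_⟩
  have hP : ∏ i, D i ≠ 0 := prod_ne_zero_iff.2 fun i _ => hD i
  obtain ⟨m, hm, hpt⟩ := ptE hlat hphi hgrp hrk hg D hD ρ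
  have hcard : Fintype.card ((S : Finset (Fin l)) × Fin (m S)) = g := by
    rw [Fintype.card_sigma]
    simpa using hm
  have hne : Nonempty ((S : Finset (Fin l)) × Fin (m S)) := by
    rw [← Fintype.card_pos_iff, hcard]
    exact hg
  have h1 := mean_fam (fun i : (S : Finset (Fin l)) × Fin (m S) => ∏ k ∈ i.1, D k) (∏ i, D i) hP
    (fun i => prod_dvd_prod_of_subset _ _ _ (subset_univ i.1)) hC0 hC
    (fun t => ((Module.finrank ℤ (ratA (E t.1 t.2) D ρ) + r t : ℕ) : ℝ)) Z (fun t ht => by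
      obtain ⟨n1, n2, n3⟩ := fam_ne ht
      obtain ⟨j, hj⟩ := hr t ht
      rw [hcard]
      exact hpt _ _ n1 n2 n3 (r t) j hj)
  rw [hcard] at h1
  exact h1

end Pool.Agent.W307.FK.G
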