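import Mathlib
import Pool.Agent.W307.SE.Stm
import Pool.Agent.W481.RS.Stm1

/-!
# Project FK: statements of the parts

The second moment of the orders of the 2-Selmer groups of all elliptic curves over `ℚ` with full
rational 2-torsion, ordered by the minimal discriminant or by height. Here the local conditions at
the primes dividing one of the differences of the roots exactly once depend on signs that are
equidistributed.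
-/

set_option autoImplicit false

namespace Pool.Agent.W307.FK

open Finset Pool.Agent.W262.RK Pool.Agent.W307.RT Pool.Agent.W307.RS Pool.Agent.W307.SE

/-- the symbol of the class `c` -/
def phi (c : Fin 3) (h g : Bool) : Bool :=
  if c = 0 then xor h g else if c = 1 then g else h

/-- the local condition at a prime of the class `c` with the sign `neg` -/
def LR (c : Fin 3) (neg : Bool) (v w h g : Bool) : Prop :=
  if c = 0 then v = w ∧ xor h g = (v && neg)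
  else if c = 1 then w = false ∧ g = (v && neg)
  else v = false ∧ h = (w && neg)

/-- the local conditions, `E` is the set of the primes with negative sign -/
def LF (s : Fin 3 → ℕ) (E : Finset ℕ) (p : ℕ) (v w h g : Bool) : Prop :=
  ∀ j, p ∣ s j → LR j (decide (p ∈ E)) v w h g

/-- the `k`-th moment of `NL` over the signs -/
noncomputable def NF (k : ℕ) (s : Fin 3 → ℕ) : ℝ :=
  (1 / 2) ^ (∏ j, s j).primeFactors.card *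
    ∑ E ∈ (∏ j, s j).primeFactors.powerset, (NL (∏ j, s j) (LF s E) : ℝ) ^ k

/-- the number of the common ones -/
def dt (k : ℕ) (x y : Fin k → Bool) : ℕ := (univ.filter (fun a => (x a && y a) = true)).card

/-- the index set: `(c, x, y)` with `x · y = 0` -/
def IF (k : ℕ) : Type :=
  {i : Fin 3 × (Fin k → Bool) × (Fin k → Bool) // dt k i.2.1 i.2.2 % 2 = 0}

instance (k : ℕ) : Fintype (IF k) :=
  inferInstanceAs (Fintype {i : Fin 3 × (Fin k → Bool) × (Fin k → Bool) //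
    dt k i.2.1 i.2.2 % 2 = 0})

instance (k : ℕ) : DecidableEq (IF k) :=
  fun a b => decidable_of_iff (a.1 = b.1) Subtype.ext_iff.symm

/-- the symbol `(d i / d i')` occurs if the classes are different and `x_i · y_{i'} = 1` -/
def Lk (k : ℕ) (i i' : IF k) : Bool :=
  decide (i.1.1 ≠ i'.1.1) && decide (dt k i.1.2.1 i'.1.2.2 % 2 = 1)

/-- EXPF: expansion of the `k`-th moment over the signs into symbols. -/
def EXPF : Prop := ∀ k c z y : ℕ, 2 ≤ z →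
  ∑ s ∈ Tup (Fin 3) z y, NF k s * ∏ j, gw 1 c (s j) =
    ∑ d ∈ Tup (IF k) z y, (∏ i, gw (1 / 2 ^ k) c (d i)) * Sym (Lk k) (fun _ => 1) d

/-- COMBF: the largest unlinked set for `k = 2`. -/
def COMBF : Prop := ∀ U : Finset (IF 2), (∀ i ∈ U, ∀ j ∈ U, Lk 2 i j = Lk 2 j i) → U.card ≤ 12

/-- MAF: the main average. -/
def MAF : Prop := ∃ z0 : ℕ, ∀ z, z0 ≤ z → ∃ C : ℝ, ∀ y, z < y →
  ∑ s ∈ Tup (Fin 3) z y, NF 2 s * ∏ j, gw 1 (Fintype.card (Fin 3)) (s j) ≤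
    C * (Real.log y) ^ (Fintype.card (Fin 3))

/-- SUBF: growth of the moments. -/
def SUBF : Prop := ∀ k z y : ℕ, 2 ≤ z →
  ∀ s e : Fin 3 → ℕ, (fun j => s j * e j) ∈ Tup (Fin 3) z y →
    NF k (fun j => s j * e j) ≤ (4 ^ k : ℝ) ^ (∑ j, (e j).primeFactors.card) * NF k s

/-- SUBL: lower bound for the growth of the local count. -/
def SUBL : Prop := ∀ (m e : ℕ) (L : ℕ → Bool → Bool → Bool → Bool → Prop), Odd (m * e) →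
  Squarefree (m * e) → (∀ p, p.Prime → p ∣ m → XC (L p)) →
  (∀ p, p.Prime → p ∣ e → ∃ c : Fin 3, ∀ h g, phi c h g = false → L p false false h g) →
  NL m L ≤ 2 ^ e.primeFactors.card * NL (m * e) L

/-- the primes with negative sign for the curve `y² = x (x - A) (x - B)` -/
def sgF (A B : ℤ) (m : ℕ) : Finset ℕ :=
  m.primeFactors.filter (fun p => ((p : ℤ) ∣ A ∧ jacobiSym (-B) p = -1) ∨
    ((p : ℤ) ∣ B ∧ jacobiSym (-A) p = -1) ∨ ((p : ℤ) ∣ A - B ∧ jacobiSym A p = -1))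

/-- SELF: the bound of the 2-Selmer group by the local count. -/
def SELF : Prop := ∀ (f : Fin 3 → ℤ) (D : ℤ) (z y X k B : ℕ), 2 ≤ z → D ≠ 0 → Gd z f →
  f 0 - f 1 = f 2 → (∀ j, (f j).natAbs ≤ X ^ B) → 1 ≤ X → 1 ≤ y → X < (y + 1) ^ k →
    (Sel (D * f 0) (D * f 1)).Finite ∧
    (Sel (D * f 0) (D * f 1)).ncard ≤
      4 ^ (z + 2) * 8 ^ D.natAbs.primeFactors.card * ((4 ^ B) ^ Fintype.card (Fin 3)) ^ k *
        4 ^ (∑ j, (S2 z y f j).primeFactors.card) *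
        NL (∏ j, S1 z y f j) (LF (S1 z y f) (sgF (D * f 0) (D * f 1) (∏ j, S1 z y f j)))

/-- AVHR: the average of a multiplicative function close to one over a residue class in a short
interval. -/
def AVHR : Prop := ∀ c z B : ℕ, 2 * c + 2 ≤ z → ∃ C : ℝ, 0 ≤ C ∧ ∀ (N r : ℤ) (X m : ℕ), 1 ≤ X →
  N.natAbs ≤ X ^ B → 1 ≤ m → m ^ 4 ≤ X →
  ∑ v ∈ (Icc 1 X).filter (fun v : ℕ => (m : ℤ) ∣ N + (v : ℤ) - r),
    ∏ p ∈ (N + (v : ℤ)).natAbs.primeFactors.filter (fun p => z < p ∧ ¬ p ∣ m),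
      (p : ℝ) / ((p : ℝ) - c) ≤ C * (X / m)

/-- the coefficients of the forms -/
def αF : Fin 3 → ℤ := ![1, 2, -1]

/-- the coefficients of the forms -/
def βF : Fin 3 → ℤ := ![0, 1, -1]

/-- the values of the forms `u`, `2 u + v`, `- u - v` -/
def fF (u v : ℤ) : Fin 3 → ℤ := fv αF βF u v

/-- CNTF: the number of the coprime pairs in a short square with given small prime factors of the
values of the forms and given signs. -/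
def CNTF : Prop := ∀ z B : ℕ, 2 * Fintype.card (Fin 3) + 2 ≤ z →
  ∃ (C : ℝ) (K y0 : ℕ), 0 ≤ C ∧ 1 ≤ K ∧ ∀ (D N1 N2 : ℤ) (X y Y : ℕ), D ≠ 0 →
  N1.natAbs ≤ X ^ B → N2.natAbs ≤ X ^ B → y0 ≤ y → z < y → y ^ K ≤ X →
  ∀ s ∈ Tup (Fin 3) z y, ∀ v ∈ Tup (Fin 3) z y, ∀ u ∈ Tup (Fin 3) y Y,
  (∏ j, s j * v j * u j) ^ 8 ≤ X → ∀ E : Finset ℕ,
    (((Icc 1 X ×ˢ Icc 1 X).filter (fun t : ℕ × ℕ =>
      IsCoprime (N1 + (t.1 : ℤ)) (N2 + (t.2 : ℤ)) ∧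
      S1 z y (fF (N1 + (t.1 : ℤ)) (N2 + (t.2 : ℤ))) = s ∧
      S2 z y (fF (N1 + (t.1 : ℤ)) (N2 + (t.2 : ℤ))) = v ∧
      (∀ j, (u j : ℤ) ∣ fF (N1 + (t.1 : ℤ)) (N2 + (t.2 : ℤ)) j) ∧
      sgF (D * fF (N1 + (t.1 : ℤ)) (N2 + (t.2 : ℤ)) 0)
        (D * fF (N1 + (t.1 : ℤ)) (N2 + (t.2 : ℤ)) 1) (∏ j, s j) = E)).card : ℝ) ≤
      C * 2 ^ D.natAbs.primeFactors.card * X ^ 2 * (1 / 2) ^ (∏ j, s j).primeFactors.card *
        (∏ j, gw 1 (Fintype.card (Fin 3)) (s j)) *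
        (∏ j, gw 1 (Fintype.card (Fin 3)) (v j) / v j) * (∏ j, 1 / (u j : ℝ)) /
        (Real.log y) ^ (Fintype.card (Fin 3))

/-- AVGF: the second moment over the coprime pairs of short squares. -/
def AVGF : Prop := ∀ B : ℕ, ∃ C : ℝ, 0 ≤ C ∧ ∀ (D N1 N2 : ℤ) (X : ℕ), D ≠ 0 → 1 ≤ X →
  N1.natAbs ≤ X ^ B → N2.natAbs ≤ X ^ B →
    ∑ t ∈ (Icc 1 X ×ˢ Icc 1 X).filter (fun t : ℕ × ℕ =>
      IsCoprime (N1 + (t.1 : ℤ)) (N2 + (t.2 : ℤ)) ∧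
      ∀ j, fF (N1 + (t.1 : ℤ)) (N2 + (t.2 : ℤ)) j ≠ 0),
    ((Sel (D * fF (N1 + (t.1 : ℤ)) (N2 + (t.2 : ℤ)) 0)
      (D * fF (N1 + (t.1 : ℤ)) (N2 + (t.2 : ℤ)) 1)).ncard : ℝ) ^ 2 ≤
      C * 128 ^ D.natAbs.primeFactors.card * X ^ 2

open Classical in
/-- the square of the order of the 2-Selmer group of `y² = x (x - D a) (x - D b)` -/
noncomputable def SS (D : ℤ) (t : ℤ × ℤ) : ℝ :=
  if IsCoprime t.1 t.2 ∧ t.1 ≠ 0 ∧ t.2 ≠ 0 ∧ t.1 ≠ t.2 then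
    ((Sel (D * t.1) (D * t.2)).ncard : ℝ) ^ 2 else 0

/-- AVGN: the second moment in short squares. -/
def AVGN : Prop := ∀ B : ℕ, ∃ C : ℝ, 0 ≤ C ∧ ∀ (D N1 N2 : ℤ) (X : ℕ), D ≠ 0 → 1 ≤ X →
  N1.natAbs ≤ X ^ B → N2.natAbs ≤ X ^ B →
    ∑ t ∈ Icc 1 X ×ˢ Icc 1 X, SS D (N1 + (t.1 : ℤ), N2 + (t.2 : ℤ)) ≤
      C * 128 ^ D.natAbs.primeFactors.card * X ^ 2

/-- COVU: from the short squares to the regions, uniformly in the function. -/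
def COVU : Prop := ∀ (J : Type) [Fintype J] [DecidableEq J] [Nonempty J] (α β : J → ℤ) (m : J → ℕ),
  (∀ j l, j ≠ l → Res α β j l ≠ 0) → (∀ j, 1 ≤ m j) → (∀ j, 2 * m j < ∑ i, m i) →
  ∃ (B : ℕ) (C : ℝ), 0 ≤ C ∧ ∀ (g : ℤ × ℤ → ℝ) (A : ℝ), 0 ≤ A → (∀ t, 0 ≤ g t) →
  (∀ (N1 N2 : ℤ) (X : ℕ), 1 ≤ X → N1.natAbs ≤ X ^ B → N2.natAbs ≤ X ^ B →
    ∑ t ∈ Icc 1 X ×ˢ Icc 1 X, g (N1 + (t.1 : ℤ), N2 + (t.2 : ℤ)) ≤ A * X ^ 2) →
  ∀ W : ℕ, 1 ≤ W → ∀ S : Finset (ℤ × ℤ),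
    (∀ t ∈ S, (∀ j, fv α β t.1 t.2 j ≠ 0) ∧
      ∏ j, (fv α β t.1 t.2 j).natAbs ^ m j ≤ W ^ (∑ i, m i)) →
    ∑ t ∈ S, g t ≤ C * A * (W : ℝ) ^ 2

/-- REGN: the second moment over the regions `|a b (a - b)| ≤ W ^ 3`. -/
def REGN : Prop := ∃ C : ℝ, 0 ≤ C ∧ ∀ D : ℤ, D ≠ 0 → ∀ W : ℕ, 1 ≤ W → ∀ S : Finset (ℤ × ℤ),
  (∀ t ∈ S, t.1 ≠ 0 ∧ t.2 ≠ 0 ∧ t.1 ≠ t.2 ∧ (t.1 * t.2 * (t.1 - t.2)).natAbs ≤ W ^ 3) →
    ∑ t ∈ S, SS D t ≤ C * 128 ^ D.natAbs.primeFactors.card * (W : ℝ) ^ 2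

/-- SOM: a convergent series. -/
def SOM : Prop := ∃ C : ℝ, 0 ≤ C ∧ ∀ n : ℕ,
  ∑ g ∈ Icc 1 n, (128 : ℝ) ^ g.primeFactors.card / (g : ℝ) ^ 2 ≤ C

/-- PARF: parametrisation of the curves with full rational 2-torsion. -/
def PARF : Prop := ∃ F : ℤ × ℤ → ℕ × ℤ × ℤ,
  Set.InjOn F {c | 4 * c.1 ^ 3 + 27 * c.2 ^ 2 ≠ 0 ∧ HasT 2 (Sh c.1 c.2)} ∧
  ∀ c : ℤ × ℤ, 4 * c.1 ^ 3 + 27 * c.2 ^ 2 ≠ 0 → HasT 2 (Sh c.1 c.2) →
    1 ≤ (F c).1 ∧ IsCoprime (F c).2.1 (F c).2.2 ∧ (F c).2.1 ≠ 0 ∧ (F c).2.2 ≠ 0 ∧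
    (F c).2.1 ≠ (F c).2.2 ∧ ∃ e1 e2 e3 : ℤ,
      (∀ x : ℤ, x ^ 3 + c.1 * x + c.2 = (x - e1) * (x - e2) * (x - e3)) ∧
      e2 - e1 = (F c).1 * (F c).2.1 ∧ e3 - e1 = (F c).1 * (F c).2.2

/-- RKS: the rank and the 2-Selmer group. -/
def RKS : Prop := ∀ A B e1 e2 e3 : ℤ, 4 * A ^ 3 + 27 * B ^ 2 ≠ 0 →
  (∀ x : ℤ, x ^ 3 + A * x + B = (x - e1) * (x - e2) * (x - e3)) → (SelR A B).Finite →
    2 ^ Module.finrank ℤ (Sh A B).toAffine.Point ≤ (SelR A B).ncard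

/-- FIND: all the curves with full rational 2-torsion, ordered by the minimal discriminant. -/
def FIND : Prop := ∃ C : ℝ, ∀ Z : ℕ, (DvS 2 Z).Finite ∧ (∀ c ∈ DvS 2 Z, (SelR c.1 c.2).Finite) ∧
  ∀ S : Finset (ℤ × ℤ), (S : Set (ℤ × ℤ)) = DvS 2 Z →
    ∑ c ∈ S, ((SelR c.1 c.2).ncard : ℝ) ^ 2 ≤ C * S.card

/-- FINH: all the curves with full rational 2-torsion, ordered by height. -/
def FINH : Prop := ∃ C : ℝ, ∀ H : ℕ, (∀ c ∈ Cv 2 H, (SelR c.1 c.2).Finite) ∧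
  ∑ c ∈ Cv 2 H, ((SelR c.1 c.2).ncard : ℝ) ^ 2 ≤ C * (Cv 2 H).card

end Pool.Agent.W307.FK
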