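import Pool.Agent.W307.FK.Gen
import Pool.Agent.W334.FK.SOM

/-!
# The sum over the pairs `0 < a < b` with squarefree gcd, ordered by the discriminant
-/

set_option autoImplicit false

namespace Pool.Agent.W307.FK.G

open Finset Pool.Agent.W307.FK

/-- the pairs `0 < a < b` with squarefree gcd and `16 (a b (b - a)) ^ 2 ≤ Z` -/
def Fam (Z : ℕ) : Finset (ℕ × ℕ) :=
  (Icc 1 Z ×ˢ Icc 1 Z).filter (fun t => t.1 < t.2 ∧ Squarefree (t.1.gcd t.2) ∧
    16 * (t.1 * t.2 * (t.2 - t.1)) ^ 2 ≤ Z)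

lemma sum4 (n : ℕ) (hn : 1 ≤ n) :
    ∑ d ∈ Icc 2 n, (1 : ℝ) / (d : ℝ) ^ 4 ≤ 1 / 4 * (1 - 1 / n) := by
  induction n, hn using Nat.le_induction with
  | base => simp
  | succ n hn ih =>
    rw [sum_Icc_succ_top (by omega)]
    have hn0 : (1 : ℝ) ≤ n := by exact_mod_cast hn
    have h1 : (1 : ℝ) / ((n + 1 : ℕ) : ℝ) ^ 4 ≤ 1 / 4 * (1 / n - 1 / ((n + 1 : ℕ) : ℝ)) := by
      push_cast
      have h2 : (1 : ℝ) / 4 * (1 / n - 1 / (n + 1)) = 1 / (4 * n * (n + 1)) := by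
        field_simp
        ring
      rw [h2]
      apply one_div_le_one_div_of_le (by positivity)
      have h3 : (0 : ℝ) < n + 1 := by linarith
      have h4 : 4 * (n : ℝ) ≤ ((n : ℝ) + 1) ^ 3 := by nlinarith [sq_nonneg ((n : ℝ) - 1)]
      calc 4 * (n : ℝ) * (n + 1) ≤ ((n : ℝ) + 1) ^ 3 * (n + 1) :=
            mul_le_mul_of_nonneg_right h4 h3.le
        _ = ((n : ℝ) + 1) ^ 4 := by ring
    linarith

lemma mult_card (W d : ℕ) : ((Icc 1 W).filter (fun a => d ∣ a)).card = W / d := by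
  have h : Icc 1 W = Ioc 0 W := by
    ext x
    simp only [mem_Icc, mem_Ioc]
    omega
  rw [h]
  exact Nat.Ioc_filter_dvd_card_eq_div W d

/-- the pairs with squarefree gcd in a square -/
def SqP (W : ℕ) : Finset (ℕ × ℕ) :=
  (Icc 1 W ×ˢ Icc 1 W).filter (fun t => Squarefree (t.1.gcd t.2))

lemma sqP_card (W : ℕ) (hW : 1 ≤ W) : (3 / 4 : ℝ) * (W : ℝ) ^ 2 ≤ (SqP W).card := by
  classical
  have h1 : (Icc 1 W ×ˢ Icc 1 W) ⊆ SqP W ∪ (Icc 2 W).biUnion (fun d =>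
      ((Icc 1 W).filter (fun a => d ^ 2 ∣ a)) ×ˢ ((Icc 1 W).filter (fun a => d ^ 2 ∣ a))) := by
    intro t ht
    have ht' := ht
    rw [mem_product, mem_Icc, mem_Icc] at ht'
    rw [mem_union]
    by_cases hs : Squarefree (t.1.gcd t.2)
    · exact Or.inl (mem_filter.2 ⟨ht, hs⟩)
    right
    rw [Nat.squarefree_iff_prime_squarefree] at hs
    push Not at hs
    obtain ⟨p, hp, hpd⟩ := hs
    have hpa : p ^ 2 ∣ t.1 := by rw [sq]; exact hpd.trans (Nat.gcd_dvd_left _ _)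
    have hpb : p ^ 2 ∣ t.2 := by rw [sq]; exact hpd.trans (Nat.gcd_dvd_right _ _)
    rw [mem_biUnion]
    refine ⟨p, ?_, ?_⟩
    · rw [mem_Icc]
      refine ⟨hp.two_le, ?_⟩
      have h2 := Nat.le_of_dvd (by omega) hpa
      have h3 : p ≤ p ^ 2 := Nat.le_self_pow (by norm_num) p
      omega
    · rw [mem_product, mem_filter, mem_filter, mem_Icc, mem_Icc]
      exact ⟨⟨ht'.1, hpa⟩, ⟨ht'.2, hpb⟩⟩
  have h2 := (card_le_card h1).trans ((card_union_le _ _).trans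
    (Nat.add_le_add_left card_biUnion_le _))
  rw [card_product, Nat.card_Icc] at h2
  simp only [Nat.add_sub_cancel] at h2
  have h3 : ((∑ d ∈ Icc 2 W, (((Icc 1 W).filter (fun a => d ^ 2 ∣ a)) ×ˢ
      ((Icc 1 W).filter (fun a => d ^ 2 ∣ a))).card : ℕ) : ℝ) ≤ 1 / 4 * (W : ℝ) ^ 2 := by
    push_cast
    have h4 : ∀ d ∈ Icc 2 W, ((((Icc 1 W).filter (fun a => d ^ 2 ∣ a)) ×ˢ
      ((Icc 1 W).filter (fun a => d ^ 2 ∣ a))).card : ℝ) ≤ (W : ℝ) ^ 2 * (1 / (d : ℝ) ^ 4) := by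
      intro d hd
      rw [mem_Icc] at hd
      have hd0 : (0 : ℝ) < d := by
        have : 0 < d := by omega
        exact_mod_cast this
      rw [card_product, mult_card]
      push_cast
      have h5 : ((W / d ^ 2 : ℕ) : ℝ) ≤ (W : ℝ) / (d : ℝ) ^ 2 := by
        refine Nat.cast_div_le.trans ?_
        push_cast
        exact le_rfl
      calc ((W / d ^ 2 : ℕ) : ℝ) * ((W / d ^ 2 : ℕ) : ℝ)
          ≤ ((W : ℝ) / (d : ℝ) ^ 2) * ((W : ℝ) / (d : ℝ) ^ 2) :=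
            mul_le_mul h5 h5 (Nat.cast_nonneg _) (by positivity)
        _ = _ := by
            field_simp
    refine (sum_le_sum h4).trans ?_
    rw [← mul_sum]
    have h6 := sum4 W hW
    have h7 : (1 : ℝ) / 4 * (1 - 1 / W) ≤ 1 / 4 := by
      have : (0 : ℝ) ≤ 1 / W := by positivity
      linarith
    have h8 := mul_le_mul_of_nonneg_left (h6.trans h7) (by positivity : (0 : ℝ) ≤ (W : ℝ) ^ 2)
    linarith
  have h4 : ((W * W : ℕ) : ℝ) ≤ ((SqP W).card + ∑ d ∈ Icc 2 W,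
      (((Icc 1 W).filter (fun a => d ^ 2 ∣ a)) ×ˢ
      ((Icc 1 W).filter (fun a => d ^ 2 ∣ a))).card : ℕ) := Nat.cast_le.2 h2
  rw [Nat.cast_add] at h4
  push_cast at h4 h3
  nlinarith

/-- the lower bound for the number of the pairs -/
lemma fam_card (Z W : ℕ) (hW : 1 ≤ W) (h64 : 64 ≤ Z) (hZ : 16 * W ^ 6 ≤ Z) :
    (1 / 8 : ℝ) * (W : ℝ) ^ 2 ≤ (Fam Z).card := by
  classical
  have hWZ : W ≤ Z := by
    have h1 : W ≤ W ^ 6 := Nat.le_self_pow (by norm_num) W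
    omega
  rcases Nat.lt_or_ge W 2 with hW2 | hW2
  · have hW1 : W = 1 := by omega
    have h1 : ((1, 2) : ℕ × ℕ) ∈ Fam Z := by
      unfold Fam
      rw [mem_filter, mem_product, mem_Icc, mem_Icc]
      refine ⟨⟨⟨le_rfl, by omega⟩, ⟨by norm_num, by omega⟩⟩, by norm_num, ?_, ?_⟩
      · norm_num
      · norm_num
        exact h64
    have h2 : 1 ≤ (Fam Z).card := card_pos.2 ⟨_, h1⟩
    have h3 : (1 : ℝ) ≤ (Fam Z).card := by exact_mod_cast h2
    rw [hW1]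
    norm_num
    linarith
  set L : Finset (ℕ × ℕ) := (SqP W).filter (fun t => t.1 < t.2) with hL
  have hsub : L ⊆ Fam Z := by
    intro t ht
    rw [hL, mem_filter, SqP, mem_filter, mem_product, mem_Icc, mem_Icc] at ht
    obtain ⟨⟨⟨⟨a1, a2⟩, ⟨a3, a4⟩⟩, a5⟩, a6⟩ := ht
    unfold Fam
    rw [mem_filter, mem_product, mem_Icc, mem_Icc]
    refine ⟨⟨⟨a1, a2.trans hWZ⟩, ⟨a3, a4.trans hWZ⟩⟩, a6, a5, ?_⟩
    refine le_trans (Nat.mul_le_mul_left _ ?_) hZ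
    have h1 : t.1 * t.2 * (t.2 - t.1) ≤ W * W * W :=
      Nat.mul_le_mul (Nat.mul_le_mul a2 a4) ((Nat.sub_le _ _).trans a4)
    calc (t.1 * t.2 * (t.2 - t.1)) ^ 2 ≤ (W * W * W) ^ 2 := Nat.pow_le_pow_left h1 2
      _ = W ^ 6 := by ring
  have hcov : SqP W ⊆ (L ∪ L.image Prod.swap) ∪ (Icc 1 W).image (fun a => (a, a)) := by
    intro t ht
    have ht' := ht
    rw [SqP, mem_filter, mem_product, mem_Icc, mem_Icc] at ht'
    rw [mem_union, mem_union, mem_image, mem_image]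
    rcases lt_trichotomy t.1 t.2 with h | h | h
    · exact Or.inl (Or.inl (mem_filter.2 ⟨ht, h⟩))
    · exact Or.inr ⟨t.1, mem_Icc.2 ht'.1.1, Prod.ext rfl h⟩
    · refine Or.inl (Or.inr ⟨t.swap, ?_, Prod.swap_swap t⟩)
      rw [hL, mem_filter, SqP, mem_filter, mem_product, mem_Icc, mem_Icc]
      refine ⟨⟨⟨ht'.1.2, ht'.1.1⟩, ?_⟩, h⟩
      show Squarefree (t.2.gcd t.1)
      rw [Nat.gcd_comm]
      exact ht'.2
  have h1 : (SqP W).card ≤ 2 * L.card + W := by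
    refine (card_le_card hcov).trans ((card_union_le _ _).trans ?_)
    have h2 := card_union_le L (L.image Prod.swap)
    have h3 : (L.image Prod.swap).card ≤ L.card := card_image_le
    have h4 : ((Icc 1 W).image (fun a => (a, a))).card ≤ W := by
      refine card_image_le.trans ?_
      simp
    omega
  have h2 : ((SqP W).card : ℝ) ≤ 2 * L.card + W := by exact_mod_cast h1
  have h3 := sqP_card W hW
  have h4 : (L.card : ℝ) ≤ (Fam Z).card := by exact_mod_cast card_le_card hsub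
  have h5 : (2 : ℝ) ≤ W := by exact_mod_cast hW2
  nlinarith

/-- the upper bound for the second moment -/
lemma fam_sum {G : ℤ → ℤ → ℕ} (h1 : REGNG G) : ∃ C : ℝ, 0 ≤ C ∧ ∀ D : ℤ, D ≠ 0 → ∀ Z W : ℕ,
    1 ≤ W → Z < 16 * W ^ 6 →
    ∑ t ∈ Fam Z, (G (D * t.1) (D * t.2) : ℝ) ^ 2 ≤
      C * 128 ^ D.natAbs.primeFactors.card * (W : ℝ) ^ 2 := by
  classical
  obtain ⟨C1, hC1, hb⟩ := h1
  obtain ⟨C2, hC2, hsom⟩ := Pool.Agent.W334.FK.som
  refine ⟨4 * C1 * C2, by positivity, fun D hD Z W hW hZ => ?_⟩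
  obtain ⟨Q, hQ⟩ : ∃ Q : ℝ, Q = 128 ^ D.natAbs.primeFactors.card := ⟨_, rfl⟩
  have hQ0 : 0 ≤ Q := by rw [hQ]; positivity
  rw [← hQ]
  -- the map
  obtain ⟨F, hF⟩ : ∃ F : ℕ × ℕ → ℕ × (ℤ × ℤ), F = fun t =>
    (t.1.gcd t.2, (((t.1 / t.1.gcd t.2 : ℕ) : ℤ), ((t.2 / t.1.gcd t.2 : ℕ) : ℤ))) := ⟨_, rfl⟩
  have hinj : Set.InjOn F (Fam Z : Set (ℕ × ℕ)) := by
    intro t _ t' _ htt
    rw [hF] at htt
    simp only [Prod.mk.injEq, Nat.cast_inj] at htt
    obtain ⟨e1, e2, e3⟩ := htt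
    refine Prod.ext ?_ ?_
    · rw [← Nat.div_mul_cancel (Nat.gcd_dvd_left t.1 t.2), e2, e1,
        Nat.div_mul_cancel (Nat.gcd_dvd_left t'.1 t'.2)]
    · rw [← Nat.div_mul_cancel (Nat.gcd_dvd_right t.1 t.2), e3, e1,
        Nat.div_mul_cancel (Nat.gcd_dvd_right t'.1 t'.2)]
  -- the properties
  have key : ∀ t ∈ Fam Z, 1 ≤ (F t).1 ∧ IsCoprime (F t).2.1 (F t).2.2 ∧ (F t).2.1 ≠ 0 ∧
      (F t).2.2 ≠ 0 ∧ (F t).2.1 ≠ (F t).2.2 ∧
      ((F t).1 : ℤ) * (F t).2.1 = t.1 ∧ ((F t).1 : ℤ) * (F t).2.2 = t.2 ∧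
      (F t).1 ^ 3 * ((F t).2.1 * (F t).2.2 * ((F t).2.1 - (F t).2.2)).natAbs ≤ W ^ 3 := by
    intro t ht
    rw [Fam, mem_filter, mem_product, mem_Icc, mem_Icc] at ht
    obtain ⟨⟨⟨a1, a2⟩, ⟨a3, a4⟩⟩, a5, a6, a7⟩ := ht
    obtain ⟨g, hg⟩ : ∃ g, g = t.1.gcd t.2 := ⟨_, rfl⟩
    have hg0 : 0 < g := by rw [hg]; exact Nat.gcd_pos_of_pos_left _ a1
    obtain ⟨u, hu⟩ : ∃ u, u = t.1 / g := ⟨_, rfl⟩
    obtain ⟨v, hv⟩ : ∃ v, v = t.2 / g := ⟨_, rfl⟩
    have e1 : g * u = t.1 := by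
      rw [hu, hg]; exact Nat.mul_div_cancel' (Nat.gcd_dvd_left _ _)
    have e2 : g * v = t.2 := by
      rw [hv, hg]; exact Nat.mul_div_cancel' (Nat.gcd_dvd_right _ _)
    have huv : Nat.Coprime u v := by
      rw [hu, hv, hg]
      exact Nat.coprime_div_gcd_div_gcd (by rw [← hg]; exact hg0)
    have hFt : F t = (g, ((u : ℤ), (v : ℤ))) := by
      rw [hF, hu, hv, hg]
    rw [hFt]
    have hu0 : u ≠ 0 := by
      rintro rfl
      omega
    have hv0 : v ≠ 0 := by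
      rintro rfl
      omega
    have huv' : u < v := by
      have : g * u < g * v := by rw [e1, e2]; exact a5
      exact Nat.lt_of_mul_lt_mul_left this
    have q1 : (u : ℤ) ≠ 0 := by exact_mod_cast hu0
    have q2 : (v : ℤ) ≠ 0 := by exact_mod_cast hv0
    have q3 : (u : ℤ) ≠ v := by exact_mod_cast huv'.ne
    have q4 : (g : ℤ) * u = t.1 := by exact_mod_cast e1
    have q5 : (g : ℤ) * v = t.2 := by exact_mod_cast e2
    refine ⟨hg0, Nat.isCoprime_iff_coprime.2 huv, q1, q2, q3, q4, q5, ?_⟩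
    have e3 : (((u : ℤ), (v : ℤ)).1 * ((u : ℤ), (v : ℤ)).2 *
        (((u : ℤ), (v : ℤ)).1 - ((u : ℤ), (v : ℤ)).2)).natAbs = u * v * (v - u) := by
      simp only
      have e4 : (u : ℤ) - v = -((v - u : ℕ) : ℤ) := by
        rw [Nat.cast_sub huv'.le]
        ring
      rw [e4, Int.natAbs_mul, Int.natAbs_mul, Int.natAbs_neg, Int.natAbs_natCast,
        Int.natAbs_natCast, Int.natAbs_natCast]
    show g ^ 3 * _ ≤ W ^ 3
    rw [e3]
    have e5 : t.1 * t.2 * (t.2 - t.1) = g ^ 3 * (u * v * (v - u)) := by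
      have e6 : t.2 - t.1 = g * (v - u) := by rw [← e1, ← e2, Nat.mul_sub]
      rw [e6, ← e1, ← e2]
      ring
    rw [← e5]
    have e7 : (t.1 * t.2 * (t.2 - t.1)) ^ 2 < (W ^ 3) ^ 2 := by
      have : (W ^ 3) ^ 2 = W ^ 6 := by ring
      rw [this]
      omega
    exact (lt_of_pow_lt_pow_left₀ 2 (Nat.zero_le _) e7).le
  have hgW : ∀ t ∈ Fam Z, (F t).1 ∈ Icc 1 W := by
    intro t ht
    obtain ⟨k0, _, k3, k4, k5, _, _, k8⟩ := key t ht
    rw [mem_Icc]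
    refine ⟨k0, ?_⟩
    have k6 : 1 ≤ ((F t).2.1 * (F t).2.2 * ((F t).2.1 - (F t).2.2)).natAbs := by
      rw [Nat.one_le_iff_ne_zero, Ne, Int.natAbs_eq_zero]
      exact mul_ne_zero (mul_ne_zero k3 k4) (sub_ne_zero.2 k5)
    have k7 : (F t).1 ^ 3 ≤ W ^ 3 := (Nat.le_mul_of_pos_right _ k6).trans k8
    exact (Nat.pow_le_pow_iff_left (by norm_num)).1 k7
  have e1 : ∑ t ∈ Fam Z, (G (D * t.1) (D * t.2) : ℝ) ^ 2 =
      ∑ t ∈ Fam Z, SSG G (D * (F t).1) (F t).2 := by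
    refine sum_congr rfl fun t ht => ?_
    obtain ⟨_, k1, k2, k3, k4, k5, k6, _⟩ := key t ht
    unfold SSG
    rw [if_pos ⟨k1, k2, k3, k4⟩, mul_assoc, mul_assoc, k5, k6]
  have e2 : ∑ t ∈ Fam Z, SSG G (D * (F t).1) (F t).2 =
      ∑ x ∈ (Fam Z).image F, SSG G (D * x.1) x.2 := by
    rw [sum_image hinj]
  have e3 : ∑ g ∈ Icc 1 W, ∑ x ∈ ((Fam Z).image F).filter (fun x => x.1 = g), SSG G (D * x.1) x.2
      = ∑ x ∈ (Fam Z).image F, SSG G (D * x.1) x.2 := by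
    apply sum_fiberwise_of_maps_to
    intro x hx
    obtain ⟨c, hc, rfl⟩ := mem_image.1 hx
    exact hgW c hc
  have e4 : ∀ g ∈ Icc 1 W,
      ∑ x ∈ ((Fam Z).image F).filter (fun x => x.1 = g), SSG G (D * x.1) x.2 ≤
      (4 * C1 * Q * (W : ℝ) ^ 2) * ((128 : ℝ) ^ g.primeFactors.card / (g : ℝ) ^ 2) := by
    intro g hg
    rw [mem_Icc] at hg
    have f1 : ∑ x ∈ ((Fam Z).image F).filter (fun x => x.1 = g), SSG G (D * x.1) x.2
        = ∑ x ∈ (((Fam Z).image F).filter (fun x => x.1 = g)).image Prod.snd,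
          SSG G (D * g) x := by
      rw [sum_image]
      · apply sum_congr rfl
        intro x hx
        rw [(mem_filter.1 hx).2]
      · intro x hx x' hx' hxx
        have q1 := (mem_filter.1 hx).2
        have q2 := (mem_filter.1 hx').2
        exact Prod.ext (q1.trans q2.symm) hxx
    rw [f1]
    have hgz : D * (g : ℤ) ≠ 0 := by
      have : g ≠ 0 := by omega
      exact mul_ne_zero hD (by exact_mod_cast this)
    have f2 := hb (D * g) hgz (W / g + 1) (Nat.le_add_left 1 _)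
      ((((Fam Z).image F).filter (fun x => x.1 = g)).image Prod.snd) (by
      intro x hx
      obtain ⟨x', hx', rfl⟩ := mem_image.1 hx
      obtain ⟨hx1, hx2⟩ := mem_filter.1 hx'
      obtain ⟨c, hc, rfl⟩ := mem_image.1 hx1
      obtain ⟨k0, _, k3, k4, k5, _, _, q1⟩ := key c hc
      refine ⟨k3, k4, k5, ?_⟩
      rw [hx2] at q1
      have q2 : W < g * (W / g + 1) := Nat.lt_mul_div_succ W (by omega)
      have q3 : W ^ 3 < (g * (W / g + 1)) ^ 3 := Nat.pow_lt_pow_left q2 (by norm_num)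
      rw [mul_pow] at q3
      exact (Nat.lt_of_mul_lt_mul_left (q1.trans_lt q3)).le)
    refine f2.trans ?_
    have hgr : (0 : ℝ) < g := by
      have : 0 < g := by omega
      exact_mod_cast this
    have f5 : (128 : ℝ) ^ (D * (g : ℤ)).natAbs.primeFactors.card ≤
        Q * 128 ^ g.primeFactors.card := by
      rw [hQ, ← pow_add, Int.natAbs_mul, Int.natAbs_natCast]
      refine pow_le_pow_right₀ (by norm_num) ?_
      rw [Nat.primeFactors_mul (Int.natAbs_ne_zero.2 hD) (by omega)]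
      exact card_union_le _ _
    have f3 : ((W / g + 1 : ℕ) : ℝ) ≤ 2 * W / g := by
      push_cast
      have r1 : ((W / g : ℕ) : ℝ) ≤ (W : ℝ) / g := Nat.cast_div_le
      have r2 : (1 : ℝ) ≤ (W : ℝ) / g := by
        rw [one_le_div hgr]
        exact_mod_cast hg.2
      have r3 : 2 * (W : ℝ) / g = (W : ℝ) / g + (W : ℝ) / g := by ring
      rw [r3]
      exact add_le_add r1 r2
    have f4 : ((W / g + 1 : ℕ) : ℝ) ^ 2 ≤ (2 * W / g) ^ 2 :=
      pow_le_pow_left₀ (Nat.cast_nonneg _) f3 2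
    calc C1 * 128 ^ (D * (g : ℤ)).natAbs.primeFactors.card * ((W / g + 1 : ℕ) : ℝ) ^ 2
        ≤ C1 * (Q * 128 ^ g.primeFactors.card) * (2 * W / g) ^ 2 :=
          mul_le_mul (mul_le_mul_of_nonneg_left f5 hC1) f4 (by positivity) (by positivity)
      _ = _ := by
          field_simp
          ring
  calc ∑ t ∈ Fam Z, (G (D * t.1) (D * t.2) : ℝ) ^ 2
      = ∑ g ∈ Icc 1 W, ∑ x ∈ ((Fam Z).image F).filter (fun x => x.1 = g),
        SSG G (D * x.1) x.2 := by rw [e1, e2, e3]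
    _ ≤ ∑ g ∈ Icc 1 W, (4 * C1 * Q * (W : ℝ) ^ 2) *
        ((128 : ℝ) ^ g.primeFactors.card / (g : ℝ) ^ 2) := sum_le_sum e4
    _ = (4 * C1 * Q * (W : ℝ) ^ 2) * ∑ g ∈ Icc 1 W,
        ((128 : ℝ) ^ g.primeFactors.card / (g : ℝ) ^ 2) := by rw [mul_sum]
    _ ≤ (4 * C1 * Q * (W : ℝ) ^ 2) * C2 := mul_le_mul_of_nonneg_left (hsom W) (by positivity)
    _ = _ := by ring

/-- the second moment over the pairs ordered by the discriminant -/
theorem famg {G : ℤ → ℤ → ℕ} (h1 : REGNG G) : ∃ C : ℝ, 0 ≤ C ∧ ∀ D : ℤ, D ≠ 0 → ∀ Z : ℕ,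
    ∑ t ∈ Fam Z, (G (D * t.1) (D * t.2) : ℝ) ^ 2 ≤
      C * 128 ^ D.natAbs.primeFactors.card * (Fam Z).card := by
  obtain ⟨C, hC, h⟩ := fam_sum h1
  refine ⟨32 * C, by positivity, fun D hD Z => ?_⟩
  rcases Nat.lt_or_ge Z 64 with hZ | hZ
  · have h0 : Fam Z = ∅ := by
      rw [Fam, filter_eq_empty_iff]
      intro t ht hcon
      rw [mem_product, mem_Icc, mem_Icc] at ht
      obtain ⟨c1, -, c3⟩ := hcon
      have c4 : 2 ≤ t.1 * t.2 * (t.2 - t.1) := by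
        have d1 : 1 ≤ t.1 := ht.1.1
        have d2 : 2 ≤ t.2 := by omega
        have d3 : 1 ≤ t.2 - t.1 := by omega
        calc 2 = 1 * 2 * 1 := by norm_num
          _ ≤ _ := Nat.mul_le_mul (Nat.mul_le_mul d1 d2) d3
      have c5 : 2 ^ 2 ≤ (t.1 * t.2 * (t.2 - t.1)) ^ 2 := Nat.pow_le_pow_left c4 2
      omega
    rw [h0]
    simp
  obtain ⟨W, hW⟩ : ∃ W, W = Nat.findGreatest (fun w => 16 * w ^ 6 ≤ Z) Z := ⟨_, rfl⟩
  have hW1 : 1 ≤ W := by
    rw [hW]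
    exact Nat.le_findGreatest (by omega) (by omega)
  have hW2 : 16 * W ^ 6 ≤ Z := by
    rw [hW]
    exact Nat.findGreatest_spec (P := fun w => 16 * w ^ 6 ≤ Z) (m := 1) (by omega) (by omega)
  have hW3 : Z < 16 * (W + 1) ^ 6 := by
    by_contra hcon
    push Not at hcon
    have h3 : W + 1 ≤ Z := by
      have : W + 1 ≤ (W + 1) ^ 6 := Nat.le_self_pow (by norm_num) _
      omega
    have h4 := Nat.le_findGreatest (P := fun w => 16 * w ^ 6 ≤ Z) h3 hcon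
    omega
  have h5 := h D hD Z (W + 1) (by omega) hW3
  have h6 := fam_card Z W hW1 hZ hW2
  refine h5.trans ?_
  have h7 : ((W + 1 : ℕ) : ℝ) ^ 2 ≤ 32 * (Fam Z).card := by
    have h8 : ((W + 1 : ℕ) : ℝ) ≤ 2 * W := by
      have : W + 1 ≤ 2 * W := by omega
      exact_mod_cast this
    have h9 : ((W + 1 : ℕ) : ℝ) ^ 2 ≤ (2 * W) ^ 2 := pow_le_pow_left₀ (Nat.cast_nonneg _) h8 2
    nlinarith
  calc C * 128 ^ D.natAbs.primeFactors.card * ((W + 1 : ℕ) : ℝ) ^ 2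
      ≤ C * 128 ^ D.natAbs.primeFactors.card * (32 * (Fam Z).card) :=
        mul_le_mul_of_nonneg_left h7 (by positivity)
    _ = _ := by ring

end Pool.Agent.W307.FK.G
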