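import Pool.Agent.W307.FK.SelS
import Pool.Agent.W307.FK.Sum
import Pool.Agent.W756.FK.Combf
import Pool.Agent.W503.FK.SUBF
import Pool.Agent.W991.FK.Avhr
import Pool.Agent.W293.FK.Cntf
import Pool.Agent.W215.FK.MAF
import Pool.Agent.W32.FK.CovU
import Pool.Agent.W513.FK.Parf
import Pool.Agent.W672.FK.Lowf
import Pool.Agent.W402.FK.RKS
import Pool.Agent.W701.FK.Find
import Pool.Agent.W410.FK.FINH
import Pool.Agent.W340.RT.SVR2
import Pool.Agent.W864.FK.ExpF

/-!
# Project FK: assembly
-/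

set_option autoImplicit false

namespace Pool.Agent.W307.FK

theorem cntf : CNTF :=
  Pool.Agent.W293.FK.Cntf.cntf_of Pool.Agent.W340.RT.SVR2.svr2 Pool.Agent.W991.FK.avhr

theorem maf_of (h : EXPF) : MAF := Pool.Agent.W215.FK.maf_of h Pool.Agent.W756.FK.combf

theorem avgn_of (h : EXPF) : AVGN := Pool.Agent.W736.FK.avgn_of
  (Pool.Agent.W612.FK.avgf_of (Pool.Agent.W293.FK.Self.self_of Pool.Agent.W940.FK.subl) cntf
    (maf_of h) Pool.Agent.W503.FK.subf)

theorem regn_of (h : EXPF) : REGN :=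
  Pool.Agent.W143.FKRegn.regn_of Pool.Agent.W32.FK.covu (avgn_of h)

theorem find_of (h : EXPF) : FIND := Pool.Agent.W701.FK.find_of (regn_of h)
  Pool.Agent.W334.FK.som Pool.Agent.W513.FK.parf Pool.Agent.W672.FK.lowf Pool.Agent.W402.FK.rks

theorem finh_of (h : EXPF) : FINH := Pool.Agent.W410.FK.finh_of (avgn_of h)
  Pool.Agent.W334.FK.som Pool.Agent.W513.FK.parf Pool.Agent.W672.FK.lowf

theorem regs_of (h : EXPF) : G.REGNG G.nS := G.regng_of Pool.Agent.W32.FK.covu
  (G.avgng_of (G.avgfg_of G.selfs cntf (maf_of h) Pool.Agent.W503.FK.subf))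

theorem expf : EXPF := Pool.Agent.W864.FK.expf

/-- the second moment ordered by the minimal discriminant -/
theorem find : FIND := find_of expf

/-- the second moment ordered by height -/
theorem finh : FINH := finh_of expf

end Pool.Agent.W307.FK
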