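import Pool.Agent.W307.FK.Gen
import Pool.Agent.W293.FK.Self
import Pool.Agent.W940.FK.SUBL
import Pool.Agent.W262.SH.Fam
import Pool.Agent.W131.SH.Locl2
import Pool.Agent.W839.SH.Desc5

/-!
# The bound of `SelS` by the local count

Adaptation of `Pool.Agent.W293.FK.Self` (helper293) to the pairs of square classes that satisfy
the local conditions at the odd primes (`SelS`, project SH of helper262).
-/

set_option autoImplicit false

namespace Pool.Agent.W307.FK.G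

open Finset Pool.Agent.W262.RK Pool.Agent.W307.RT Pool.Agent.W571.RT Pool.Agent.W307.SE
  Pool.Agent.W307.FK Pool.Agent.W293.FK.Self

/-- the local hypotheses and the signs -/
lemma locS {f : Fin 3 → ℤ} {D : ℤ} {z y : ℕ} (hD : D ≠ 0) (hG : Gd z f)
    (hF : f 0 - f 1 = f 2) {p : ℕ} (hp : p.Prime) (hpD : ¬ (p : ℤ) ∣ D) {j : Fin 3}
    (hj : p ∣ S1 z y f j) (m : ℕ) (hm : m ≠ 0) (hpm : p ∣ m) :
    ∃ κ : ℤ, ¬ (p : ℤ) ∣ κ ∧ LocH j.castSucc (fun _ => κ) false p (D * f 0) (D * f 1) ∧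
      ∀ v w h g : Bool, LL j.castSucc (fun _ => κ) false p v w h g →
        LR j (decide (p ∈ sgF (D * f 0) (D * f 1) m)) v w h g := by
  obtain ⟨hPS, hjf, hjf2⟩ := (S1_dvd_iff hp).1 hj
  have hzp := (mem_PS.1 hPS).1.1
  have hpi : Prime (p : ℤ) := Nat.prime_iff_prime_int.1 hp
  have hother : ∀ l, j ≠ l → ¬ (p : ℤ) ∣ D * f l := by
    intro l hl h
    rcases hpi.dvd_or_dvd h with h | h
    · exact hpD h
    · exact hG.2 p hp hzp j l hl ⟨hjf, h⟩
  have hsqf : ¬ (p : ℤ) ^ 2 ∣ D * f j := by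
    intro h
    exact hjf2 (Int.isCoprime_iff_gcd_eq_one.2 (by
      have h1 : IsCoprime ((p : ℤ) ^ 2) D :=
        IsCoprime.pow_left ((Prime.coprime_iff_not_dvd hpi).2 hpD)
      exact Int.isCoprime_iff_gcd_eq_one.1 h1) |>.dvd_of_dvd_mul_left h)
  have hAB : D * f 0 - D * f 1 = D * f 2 := by rw [← hF]; ring
  have hmem : p ∈ m.primeFactors := Nat.mem_primeFactors.2 ⟨hp, hpm, hm⟩
  have hsq : ∀ x : ℤ, ¬ (p : ℤ) ∣ x → jacobiSym (x * x) p = 1 := by
    intro x hx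
    rw [← sq]
    exact jac_sq hp hx
  have hn : ∀ x : ℤ, ¬ (p : ℤ) ∣ x → ¬ (p : ℤ) ∣ -x := fun x hx h => hx ((dvd_neg).1 h)
  have hj012 : j = 0 ∨ j = 1 ∨ j = 2 := by
    fin_cases j <;> simp
  rcases hj012 with rfl | rfl | rfl
  · have a0 : (p : ℤ) ∣ D * f 0 := hjf.mul_left _
    have a1 : ¬ (p : ℤ) ∣ D * f 1 := hother 1 (by decide)
    have a2 : ¬ (p : ℤ) ∣ D * f 2 := hother 2 (by decide)
    refine ⟨-(D * f 1), hn _ a1, ?_, ?_⟩
    · unfold LocH
      rw [if_pos (by rfl)]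
      exact ⟨a0, hsqf, a1, hsq _ (hn _ a1)⟩
    · intro v w h g hL
      have hE : decide (p ∈ sgF (D * f 0) (D * f 1) m) = sg0 p (-(D * f 1)) := by
        unfold sg0 sgF
        rw [decide_eq_decide, mem_filter, hAB]
        simp [hmem, a0, a1, a2]
      rw [hE]
      unfold LL at hL
      rw [if_pos (by rfl)] at hL
      unfold LR
      rw [if_pos rfl]
      exact hL
  · have a1 : (p : ℤ) ∣ D * f 1 := hjf.mul_left _
    have a0 : ¬ (p : ℤ) ∣ D * f 0 := hother 0 (by decide)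
    have a2 : ¬ (p : ℤ) ∣ D * f 2 := hother 2 (by decide)
    refine ⟨-(D * f 0), hn _ a0, ?_, ?_⟩
    · unfold LocH
      rw [if_neg (by decide), if_pos (by rfl)]
      exact ⟨a1, hsqf, a0, hsq _ (hn _ a0)⟩
    · intro v w h g hL
      have hE : decide (p ∈ sgF (D * f 0) (D * f 1) m) = sg0 p (-(D * f 0)) := by
        unfold sg0 sgF
        rw [decide_eq_decide, mem_filter, hAB]
        simp [hmem, a0, a1, a2]
      rw [hE]
      unfold LL at hL
      rw [if_neg (by decide), if_pos (by rfl)] at hL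
      unfold LR
      rw [if_neg (by decide), if_pos rfl]
      exact hL
  · have a2 : (p : ℤ) ∣ D * f 2 := hjf.mul_left _
    have a0 : ¬ (p : ℤ) ∣ D * f 0 := hother 0 (by decide)
    have a1 : ¬ (p : ℤ) ∣ D * f 1 := hother 1 (by decide)
    refine ⟨D * f 0, a0, ?_, ?_⟩
    · unfold LocH
      rw [if_neg (by decide), if_neg (by decide), if_pos (by rfl), hAB]
      exact ⟨a2, hsqf, a0, hsq _ a0⟩
    · intro v w h g hL
      have hE : decide (p ∈ sgF (D * f 0) (D * f 1) m) = sg0 p (D * f 0) := by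
        unfold sg0 sgF
        rw [decide_eq_decide, mem_filter, hAB]
        simp [hmem, a0, a1, a2]
      rw [hE]
      unfold LL at hL
      rw [if_neg (by decide), if_neg (by decide), if_pos (by rfl)] at hL
      unfold LR
      rw [if_neg (by decide), if_neg (by decide)]
      exact hL

/-- the order of `SelS` -/
noncomputable def nS (A B : ℤ) : ℕ := (Pool.Agent.W262.SH.SelS A B).ncard

theorem selfs : SELFG nS := by
  intro f D z y X k B hz hD hG hF hb hX hy hk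
  have h : SUBL := Pool.Agent.W940.FK.subl
  have hseld : Pool.Agent.W262.SH.DESC5 := Pool.Agent.W839.SH.desc5 Pool.Agent.W131.SH.good2
  have hlocl : Pool.Agent.W262.SH.LOCL2 := Pool.Agent.W131.SH.locl2
  have hf0 := hG.1
  have hmem : S1 z y f ∈ Tup (Fin 3) z y := S1_mem hG.2
  obtain ⟨m, hm⟩ : ∃ m, m = ∏ j, S1 z y f j := ⟨_, rfl⟩
  rw [← hm]
  have hmd : m ∣ PP z y := by rw [hm]; exact Tup_prod_dvd hmem
  have hmsq : Squarefree m := (PP_squarefree z y).squarefree_of_dvd hmd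
  have hm0 : m ≠ 0 := hmsq.ne_zero
  have hPSof : ∀ p : ℕ, p.Prime → p ∣ m → p ∈ PS z y := fun p hp h =>
    (prime_dvd_PP hp).1 (h.trans hmd)
  have hodd2 : ∀ p : ℕ, p.Prime → p ∣ m → p ≠ 2 := by
    intro p hp h
    have h1 := (mem_PS.1 (hPSof p hp h)).1.1
    omega
  have hmodd : Odd m := by
    rw [← Nat.not_even_iff_odd, even_iff_two_dvd]
    intro h
    exact hodd2 2 Nat.prime_two h rfl
  obtain ⟨m', hm'⟩ : ∃ m', m' = ∏ p ∈ m.primeFactors.filter (fun p => ¬ p ∣ D.natAbs), p :=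
    ⟨_, rfl⟩
  obtain ⟨e, he⟩ : ∃ e, e = ∏ p ∈ m.primeFactors.filter (fun p => p ∣ D.natAbs), p := ⟨_, rfl⟩
  have hme : m' * e = m := by
    rw [hm', he, mul_comm, prod_filter_mul_prod_filter_not]
    exact Nat.prod_primeFactors_of_squarefree hmsq
  have hpm' : ∀ p : ℕ, p.Prime → (p ∣ m' ↔ p ∣ m ∧ ¬ p ∣ D.natAbs) := by
    intro p hp
    rw [hm', Prime.dvd_finsetProd_iff hp.prime]
    constructor
    · rintro ⟨q, hq, hpq⟩
      rw [mem_filter, Nat.mem_primeFactors] at hq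
      rw [(Nat.prime_dvd_prime_iff_eq hp hq.1.1).1 hpq]
      exact ⟨hq.1.2.1, hq.2⟩
    · rintro ⟨h1, h2⟩
      exact ⟨p, mem_filter.2 ⟨Nat.mem_primeFactors.2 ⟨hp, h1, hm0⟩, h2⟩, dvd_rfl⟩
  have hpe : ∀ p : ℕ, p.Prime → (p ∣ e ↔ p ∣ m ∧ p ∣ D.natAbs) := by
    intro p hp
    rw [he, Prime.dvd_finsetProd_iff hp.prime]
    constructor
    · rintro ⟨q, hq, hpq⟩
      rw [mem_filter, Nat.mem_primeFactors] at hq
      rw [(Nat.prime_dvd_prime_iff_eq hp hq.1.1).1 hpq]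
      exact ⟨hq.1.2.1, hq.2⟩
    · rintro ⟨h1, h2⟩
      exact ⟨p, mem_filter.2 ⟨Nat.mem_primeFactors.2 ⟨hp, h1, hm0⟩, h2⟩, dvd_rfl⟩
  have hm'm : m' ∣ m := Dvd.intro _ hme
  have hem : e ∣ m := Dvd.intro_left _ hme
  obtain ⟨L, hL⟩ : ∃ L, L = LF (S1 z y f) (sgF (D * f 0) (D * f 1) m) := ⟨_, rfl⟩
  rw [← hL]
  have hA : D * f 0 ≠ 0 := mul_ne_zero hD (hf0 0)
  have hB' : D * f 1 ≠ 0 := mul_ne_zero hD (hf0 1)
  have hAB' : D * f 0 - D * f 1 = D * f 2 := by rw [← hF]; ring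
  have hne : D * f 0 ≠ D * f 1 := by
    intro h
    exact mul_ne_zero hD (hf0 2) (by rw [← hAB', h, sub_self])
  have hxc : ∀ p, XC (L p) := fun p => by rw [hL]; exact xcLF _ _ p
  have hd := hseld m' L (D * f 0) (D * f 1) hA hB' hne (hmodd.of_dvd_nat hm'm)
    (hmsq.squarefree_of_dvd hm'm) (fun p _ _ => hxc p)
    (fun p _ hpd e1 e2 he1 he2 hsol => by
      have hpp : p.Prime := Fact.out
      rw [hL]
      intro j hj
      obtain ⟨hpm, hpD⟩ := (hpm' p hpp).1 hpd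
      obtain ⟨κ, k1, k2, k3⟩ := locS hD hG hF hpp (fun h => hpD (Int.natCast_dvd.1 h)) hj m hm0
        hpm
      exact k3 _ _ _ _ (hlocl j.castSucc (fun _ => κ) false p (D * f 0) (D * f 1)
        (hodd2 p hpp hpm) (fun _ => k1) k2 e1 e2 he1 he2 hsol))
  unfold nS
  refine hd.2.trans ?_
  have hsubl := h m' e L (by rw [hme]; exact hmodd) (by rw [hme]; exact hmsq)
    (fun p _ _ => hxc p) (fun p hp hpd => by
      obtain ⟨h1, -⟩ := (hpe p hp).1 hpd
      rw [hm, Prime.dvd_finsetProd_iff hp.prime] at h1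
      obtain ⟨j, -, hj⟩ := h1
      refine ⟨j, fun h' g' hphi => ?_⟩
      rw [hL]
      intro j' hj'
      have hjj : j' = j := by
        by_contra hcon
        have a1 := (S1_dvd_iff hp).1 hj
        have a2 := (S1_dvd_iff hp).1 hj'
        exact hG.2 p hp (mem_PS.1 a1.1).1.1 j' j hcon ⟨a2.2.1, a1.2.1⟩
      rw [hjj]
      exact phiLR _ _ _ _ hphi)
  rw [hme] at hsubl
  have hec : e.primeFactors.card ≤ D.natAbs.primeFactors.card := by
    apply card_le_card
    intro p hp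
    rw [Nat.mem_primeFactors] at hp ⊢
    exact ⟨hp.1, ((hpe p hp.1).1 hp.2.1).2, Int.natAbs_ne_zero.2 hD⟩
  have hbad := bad (m' := m') hz hD hf0 hb hk hy (fun q hq h1 h2 => by
    rw [← hm] at h1
    exact (hpm' q hq).2 ⟨h1, h2⟩)
  rw [← hAB'] at hbad
  have h8 : 8 ^ D.natAbs.primeFactors.card
      = 4 ^ D.natAbs.primeFactors.card * 2 ^ D.natAbs.primeFactors.card := by
    rw [← mul_pow]
    norm_num
  calc _ ≤ 4 ^ ((z + 2) + (Fintype.card (Fin 3) * (B * k))
        + ∑ j, (S2 z y f j).primeFactors.card + D.natAbs.primeFactors.card)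
        * (2 ^ D.natAbs.primeFactors.card * NL m L) := by
        refine Nat.mul_le_mul (Nat.pow_le_pow_right (by norm_num) (by omega)) ?_
        exact hsubl.trans (Nat.mul_le_mul_right _ (Nat.pow_le_pow_right (by norm_num) hec))
    _ = _ := by
        rw [h8, pow_add, pow_add, pow_add]
        have e2 : ((4 ^ B) ^ Fintype.card (Fin 3)) ^ k = 4 ^ (Fintype.card (Fin 3) * (B * k)) := by
          rw [← pow_mul, ← pow_mul]
          congr 1
          ring
        rw [e2]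
        ring


end Pool.Agent.W307.FK.G
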